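import Mathlib

/-!
# The Laplacian formula for the IKTU curvature of hypergraphs fails

A weighted hypergraph with seven vertices and six hyperedges and two vertices `x`, `y` at
distance `2` for which the IKTU curvature is strictly smaller than `C(x, y)`.
-/

namespace Pool.Agent.Results.MP_da7216_co.LaplacianFormula

open Filter Topology

set_option linter.unusedSimpArgs false
set_option linter.unusedSectionVars false

/-- A weighted hypergraph with vertex set `V`: the hyperedges are the sets `edge i`, they are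
nonempty and pairwise distinct, and `w i` is the positive weight of `edge i`. -/
structure WHypergraph (V ι : Type) where
  /-- the hyperedges -/
  edge : ι → Finset V
  edge_nonempty : ∀ i, (edge i).Nonempty
  edge_injective : Function.Injective edge
  /-- the weights -/
  w : ι → ℝ
  w_pos : ∀ i, 0 < w i

/-- The indicator function of `x`. -/
def delta {V : Type} [DecidableEq V] (x : V) : V → ℝ := Pi.single x 1

namespace WHypergraph

variable {V ι : Type} [Fintype V] [DecidableEq V] [Fintype ι] (H : WHypergraph V ι)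

/-- The graph on `V` in which distinct `x`, `y` are adjacent when some hyperedge contains both. -/
def graph : SimpleGraph V where
  Adj x y := x ≠ y ∧ ∃ i, x ∈ H.edge i ∧ y ∈ H.edge i
  symm := ⟨fun _ _ h => ⟨h.1.symm, h.2.imp fun _ hi => ⟨hi.2, hi.1⟩⟩⟩
  loopless := ⟨fun _ h => h.1 rfl⟩

/-- The path distance. -/
noncomputable def dist (x y : V) : ℝ := (H.graph.dist x y : ℝ)

/-- The weighted degree `d_v`. -/
noncomputable def deg (v : V) : ℝ := ∑ i, if v ∈ H.edge i then H.w i else 0

/-- The scalar product `⟨f, g⟩ = ∑ f(v) g(v) / d_v`. -/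
noncomputable def inner (f g : V → ℝ) : ℝ := ∑ v, f v * g v / H.deg v

/-- The base polytope `B_e` of the hyperedge `e = edge i`. -/
def B (i : ι) : Set (V → ℝ) :=
  convexHull ℝ {b | ∃ x ∈ H.edge i, ∃ y ∈ H.edge i, b = delta x - delta y}

/-- The set of the maximisers `b ∈ B_e` of `⟨f, b⟩`. -/
def argmaxB (f : V → ℝ) (i : ι) : Set (V → ℝ) :=
  {b | b ∈ H.B i ∧ ∀ b' ∈ H.B i, H.inner f b' ≤ H.inner f b}

/-- The multivalued hypergraph Laplacian. -/
def lap (f : V → ℝ) : Set (V → ℝ) :=
  {l | ∃ b : ι → V → ℝ, (∀ i, b i ∈ H.argmaxB f i) ∧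
    l = ∑ i, (H.w i * H.inner f (b i)) • b i}

/-- `l` is the element of least norm of `lap f`. -/
def IsLapZero (f l : V → ℝ) : Prop :=
  l ∈ H.lap f ∧ ∀ l' ∈ H.lap f, H.inner l l ≤ H.inner l' l'

/-- `F = J_s f`, that is, `f ∈ F + s • lap F`. -/
def IsResolvent (s : ℝ) (f F : V → ℝ) : Prop := ∃ l ∈ H.lap F, f = F + s • l

/-- The weighted `1`-Lipschitz functions. -/
def Lip : Set (V → ℝ) := {f | ∀ x y, H.inner f (delta x - delta y) ≤ H.dist x y}

/-- The `f ∈ Lip` with `⟨f, δ_x - δ_y⟩ = d(x, y)`. -/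
def LipXY (x y : V) : Set (V → ℝ) :=
  {f | f ∈ H.Lip ∧ H.inner f (delta x - delta y) = H.dist x y}

/-- The values `⟨J_s f, δ_x - δ_y⟩` for `f ∈ Lip`. -/
def KSet (s : ℝ) (x y : V) : Set ℝ :=
  {r | ∃ f ∈ H.Lip, ∃ F, H.IsResolvent s f F ∧ r = H.inner F (delta x - delta y)}

/-- The Kantorovich difference `K_s(x, y)`. -/
noncomputable def K (s : ℝ) (x y : V) : ℝ := sSup (H.KSet s x y)

/-- The values `⟨L⁰ f, δ_x - δ_y⟩` for `f ∈ Lip_{x,y}`. -/
def CSet (x y : V) : Set ℝ :=
  {r | ∃ f ∈ H.LipXY x y, ∃ l, H.IsLapZero f l ∧ r = H.inner l (delta x - delta y)}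

/-- The quantity `C(x, y)`. -/
noncomputable def C (x y : V) : ℝ := 1 / H.dist x y * sInf (H.CSet x y)

/-- `k` is the IKTU curvature of `x`, `y`. -/
def IsCurvature (x y : V) (k : ℝ) : Prop :=
  Tendsto (fun s : ℝ => 1 / s * (1 - H.K s x y / H.dist x y)) (𝓝[>] 0) (𝓝 k)

/-! ## General facts -/

lemma inner_delta (f : V → ℝ) (x y : V) :
    H.inner f (delta x - delta y) = f x / H.deg x - f y / H.deg y := by
  unfold inner delta
  have h : ∀ v, f v * ((Pi.single x (1 : ℝ) : V → ℝ) - (Pi.single y (1 : ℝ) : V → ℝ)) v / H.deg v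
      = (if v = x then f v / H.deg v else 0) - (if v = y then f v / H.deg v else 0) := by
    intro v
    simp only [Pi.sub_apply, Pi.single_apply]
    split_ifs <;> ring
  rw [Finset.sum_congr rfl (fun v _ => h v), Finset.sum_sub_distrib]
  simp

lemma inner_add_right (f a b : V → ℝ) : H.inner f (a + b) = H.inner f a + H.inner f b := by
  unfold inner
  rw [← Finset.sum_add_distrib]
  refine Finset.sum_congr rfl fun v _ => ?_
  simp only [Pi.add_apply]; ring

lemma inner_smul_right (f a : V → ℝ) (c : ℝ) : H.inner f (c • a) = c * H.inner f a := by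
  unfold inner
  rw [Finset.mul_sum]
  refine Finset.sum_congr rfl fun v _ => ?_
  simp only [Pi.smul_apply, smul_eq_mul]; ring

lemma inner_comm (a b : V → ℝ) : H.inner a b = H.inner b a := by
  unfold inner
  refine Finset.sum_congr rfl fun v _ => ?_
  ring

/-- A linear inequality on `B_e` can be checked on the generators. -/
lemma B_le (i : ι) (c : V → ℝ) (M : ℝ)
    (h : ∀ x ∈ H.edge i, ∀ y ∈ H.edge i, c x - c y ≤ M) (b : V → ℝ) (hb : b ∈ H.B i) :
    ∑ v, c v * b v ≤ M := by
  have hconv : Convex ℝ {b : V → ℝ | ∑ v, c v * b v ≤ M} := by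
    apply convex_halfSpace_le
    constructor
    · intro a b
      rw [← Finset.sum_add_distrib]
      refine Finset.sum_congr rfl fun v _ => ?_
      simp only [Pi.add_apply]; ring
    · intro r a
      rw [smul_eq_mul, Finset.mul_sum]
      refine Finset.sum_congr rfl fun v _ => ?_
      simp only [Pi.smul_apply, smul_eq_mul]; ring
  have hsub : {b : V → ℝ | ∃ x ∈ H.edge i, ∃ y ∈ H.edge i, b = delta x - delta y} ⊆
      {b : V → ℝ | ∑ v, c v * b v ≤ M} := by
    rintro b ⟨x, hx, y, hy, rfl⟩
    have e : ∑ v, c v * (delta x - delta y : V → ℝ) v = c x - c y := by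
      have h : ∀ v, c v * (delta x - delta y : V → ℝ) v
          = (if v = x then c v else 0) - (if v = y then c v else 0) := by
        intro v
        simp only [delta, Pi.sub_apply, Pi.single_apply]
        split_ifs <;> ring
      rw [Finset.sum_congr rfl (fun v _ => h v), Finset.sum_sub_distrib]
      simp
    show ∑ v, c v * (delta x - delta y : V → ℝ) v ≤ M
    rw [e]
    exact h x hx y hy
  exact convexHull_min hsub hconv hb

/-- Reading `⟨f, b⟩` through `g = f / d`. -/
lemma inner_eq (f b : V → ℝ) : H.inner f b = ∑ v, (f v / H.deg v) * b v := by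
  unfold inner
  refine Finset.sum_congr rfl fun v _ => ?_
  ring

lemma inner_le (f : V → ℝ) (i : ι) (M : ℝ)
    (h : ∀ x ∈ H.edge i, ∀ y ∈ H.edge i, f x / H.deg x - f y / H.deg y ≤ M) (b : V → ℝ)
    (hb : b ∈ H.B i) : H.inner f b ≤ M := by
  rw [inner_eq]
  exact H.B_le i _ M h b hb

lemma gen_mem (i : ι) {x y : V} (hx : x ∈ H.edge i) (hy : y ∈ H.edge i) :
    (delta x - delta y : V → ℝ) ∈ H.B i :=
  subset_convexHull ℝ _ ⟨x, hx, y, hy, rfl⟩

lemma gen_le {f : V → ℝ} {i : ι} {b : V → ℝ} (hb : b ∈ H.argmaxB f i) {x y : V}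
    (hx : x ∈ H.edge i) (hy : y ∈ H.edge i) :
    f x / H.deg x - f y / H.deg y ≤ H.inner f b := by
  rw [← H.inner_delta]
  exact hb.2 _ (H.gen_mem i hx hy)

/-- The perturbed inequality: a linear functional whose values on the generators exceed
`⟨f, ·⟩` only in a controlled way. -/
lemma pert {f : V → ℝ} {i : ι} {b : V → ℝ} (hb : b ∈ H.argmaxB f i) (a : V) (ε M : ℝ)
    (h : ∀ x ∈ H.edge i, ∀ y ∈ H.edge i,
      (f x / H.deg x - ε * (if x = a then 1 else 0)) -
        (f y / H.deg y - ε * (if y = a then 1 else 0)) ≤ M) :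
    H.inner f b ≤ M + ε * b a := by
  have h1 := H.B_le i (fun v => f v / H.deg v - ε * (if v = a then 1 else 0)) M h b hb.1
  have e : ∑ v, (f v / H.deg v - ε * (if v = a then 1 else 0)) * b v
      = H.inner f b - ε * b a := by
    rw [inner_eq]
    have : ∀ v, (f v / H.deg v - ε * (if v = a then 1 else 0)) * b v
        = f v / H.deg v * b v - (if v = a then ε * b v else 0) := by
      intro v
      split_ifs <;> ring
    rw [Finset.sum_congr rfl (fun v _ => this v), Finset.sum_sub_distrib]
    simp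
  have h2 := e ▸ h1
  linarith

/-- The coordinates of an element of `B_e` sum to `0`. -/
lemma B_sum (i : ι) (b : V → ℝ) (hb : b ∈ H.B i) : ∑ v, b v = 0 := by
  have h1 := H.B_le i (fun _ => 1) 0 (fun _ _ _ _ => by norm_num) b hb
  have h2 := H.B_le i (fun _ => -1) 0 (fun _ _ _ _ => by norm_num) b hb
  simp only [one_mul, neg_one_mul, Finset.sum_neg_distrib] at h1 h2
  linarith

/-- An element of `B_e` vanishes outside `e`. -/
lemma B_supp (i : ι) (b : V → ℝ) (hb : b ∈ H.B i) (a : V) (ha : a ∉ H.edge i) : b a = 0 := by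
  have key : ∀ r : ℝ, r * b a ≤ 0 := by
    intro r
    have h1 := H.B_le i (fun v => if v = a then r else 0) 0 (by
      intro x hx y hy
      have hx' : x ≠ a := fun h => ha (h ▸ hx)
      have hy' : y ≠ a := fun h => ha (h ▸ hy)
      simp [hx', hy']) b hb
    have e : ∑ v, (if v = a then r else 0) * b v = r * b a := by simp
    linarith
  have h1 := key 1
  have h2 := key (-1)
  linarith

/-- If `f / d` is not minimal on `e` at `a`, then `b a ≥ 0`. -/
lemma nonneg_of_not_min {f : V → ℝ} {i : ι} {b : V → ℝ} (hb : b ∈ H.argmaxB f i) (a : V)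
    (ha : a ∈ H.edge i) (c : V) (hc : c ∈ H.edge i)
    (hlt : f c / H.deg c < f a / H.deg a) : 0 ≤ b a := by
  set m := H.inner f b with hm
  set ε := f a / H.deg a - f c / H.deg c with hε
  have hε0 : 0 < ε := by linarith
  have h := H.pert hb a ε m (by
    intro x hx y hy
    have h1 := H.gen_le hb hx hy
    have h2 := H.gen_le hb hx hc
    by_cases hxa : x = a
    · by_cases hya : y = a
      · subst hxa; subst hya
        simp only [if_true]
        linarith
      · rw [if_pos hxa, if_neg hya]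
        linarith
    · by_cases hya : y = a
      · rw [if_neg hxa, if_pos hya]
        subst hya
        linarith
      · rw [if_neg hxa, if_neg hya]
        linarith)
  have : 0 ≤ ε * b a := by linarith
  exact nonneg_of_mul_nonneg_right this hε0

/-- If `f / d` is not maximal on `e` at `a`, then `b a ≤ 0`. -/
lemma nonpos_of_not_max {f : V → ℝ} {i : ι} {b : V → ℝ} (hb : b ∈ H.argmaxB f i) (a : V)
    (ha : a ∈ H.edge i) (c : V) (hc : c ∈ H.edge i)
    (hlt : f a / H.deg a < f c / H.deg c) : b a ≤ 0 := by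
  set m := H.inner f b with hm
  set ε := f c / H.deg c - f a / H.deg a with hε
  have hε0 : 0 < ε := by linarith
  have h := H.pert hb a (-ε) m (by
    intro x hx y hy
    have h1 := H.gen_le hb hx hy
    have h2 := H.gen_le hb hc hy
    by_cases hxa : x = a
    · by_cases hya : y = a
      · subst hxa; subst hya
        simp only [if_true]
        linarith
      · rw [if_pos hxa, if_neg hya]
        subst hxa
        linarith
    · by_cases hya : y = a
      · rw [if_neg hxa, if_pos hya]
        linarith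
      · rw [if_neg hxa, if_neg hya]
        linarith)
  have : ε * b a ≤ 0 := by linarith
  exact nonpos_of_mul_nonpos_right this hε0

/-- The coordinates of an element of `B_e` lie in `[-1, 1]`. -/
lemma B_abs (i : ι) (b : V → ℝ) (hb : b ∈ H.B i) (a : V) : |b a| ≤ 1 := by
  have key : ∀ r : ℝ, |r| ≤ 1 → r * b a ≤ 1 := by
    intro r hr
    have hr' := abs_le.1 hr
    have h1 := H.B_le i (fun v => if v = a then r else 0) 1 (by
      intro x hx y hy
      split_ifs <;> linarith [hr'.1, hr'.2]) b hb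
    have e : ∑ v, (if v = a then r else 0) * b v = r * b a := by simp
    linarith
  have h1 := key 1 (by simp)
  have h2 := key (-1) (by simp)
  rw [abs_le]
  constructor <;> linarith

lemma zero_le_argmax {f : V → ℝ} {i : ι} {b : V → ℝ} (hb : b ∈ H.argmaxB f i) :
    0 ≤ H.inner f b := by
  obtain ⟨x, hx⟩ := H.edge_nonempty i
  have := H.gen_le hb hx hx
  linarith

/-- At a vertex where `f / d` is maximal the contribution of `e` is nonnegative. -/
lemma contrib_nonneg {f : V → ℝ} {i : ι} {b : V → ℝ} (hb : b ∈ H.argmaxB f i) (a : V)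
    (ha : ∀ c, f c / H.deg c ≤ f a / H.deg a) : 0 ≤ H.inner f b * b a := by
  set m := H.inner f b with hm
  have hm0 : 0 ≤ m := H.zero_le_argmax hb
  rcases hm0.eq_or_lt with h0 | hpos
  · rw [← h0]; simp
  by_cases hae : a ∈ H.edge i
  · refine mul_nonneg hm0 ?_
    have h := H.pert hb a m m (by
      intro x hx y hy
      have h1 := H.gen_le hb hx hy
      have h2 := ha x
      by_cases hxa : x = a
      · by_cases hya : y = a
        · subst hxa; subst hya
          simp only [if_true]
          linarith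
        · rw [if_pos hxa, if_neg hya]
          linarith
      · by_cases hya : y = a
        · rw [if_neg hxa, if_pos hya]
          subst hya
          linarith
        · rw [if_neg hxa, if_neg hya]
          linarith)
    have : 0 ≤ m * b a := by linarith
    exact nonneg_of_mul_nonneg_right this hpos
  · rw [H.B_supp i b hb.1 a hae]; simp

/-- At a vertex where `f / d` is minimal the contribution of `e` is nonpositive. -/
lemma contrib_nonpos {f : V → ℝ} {i : ι} {b : V → ℝ} (hb : b ∈ H.argmaxB f i) (a : V)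
    (ha : ∀ c, f a / H.deg a ≤ f c / H.deg c) : H.inner f b * b a ≤ 0 := by
  set m := H.inner f b with hm
  have hm0 : 0 ≤ m := H.zero_le_argmax hb
  rcases hm0.eq_or_lt with h0 | hpos
  · rw [← h0]; simp
  by_cases hae : a ∈ H.edge i
  · refine mul_nonpos_of_nonneg_of_nonpos hm0 ?_
    have h := H.pert hb a (-m) m (by
      intro x hx y hy
      have h1 := H.gen_le hb hx hy
      have h2 := ha y
      by_cases hxa : x = a
      · by_cases hya : y = a
        · subst hxa; subst hya
          simp only [if_true]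
          linarith
        · rw [if_pos hxa, if_neg hya]
          subst hxa
          linarith
      · by_cases hya : y = a
        · rw [if_neg hxa, if_pos hya]
          linarith
        · rw [if_neg hxa, if_neg hya]
          linarith)
    have : m * b a ≤ 0 := by linarith
    exact nonpos_of_mul_nonpos_right this hpos
  · rw [H.B_supp i b hb.1 a hae]; simp

lemma deg_nonneg (v : V) : 0 ≤ H.deg v := by
  unfold deg
  refine Finset.sum_nonneg fun i _ => ?_
  split_ifs
  · exact (H.w_pos i).le
  · exact le_rfl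

lemma lap_nonneg {F l : V → ℝ} (hl : l ∈ H.lap F) (a : V)
    (ha : ∀ c, F c / H.deg c ≤ F a / H.deg a) : 0 ≤ l a := by
  obtain ⟨b, hb, rfl⟩ := hl
  simp only [Finset.sum_apply, Pi.smul_apply, smul_eq_mul]
  refine Finset.sum_nonneg fun i _ => ?_
  have := H.contrib_nonneg (hb i) a ha
  rw [mul_assoc]
  exact mul_nonneg (H.w_pos i).le this

lemma lap_nonpos {F l : V → ℝ} (hl : l ∈ H.lap F) (a : V)
    (ha : ∀ c, F a / H.deg a ≤ F c / H.deg c) : l a ≤ 0 := by
  obtain ⟨b, hb, rfl⟩ := hl
  simp only [Finset.sum_apply, Pi.smul_apply, smul_eq_mul]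
  refine Finset.sum_nonpos fun i _ => ?_
  have := H.contrib_nonpos (hb i) a ha
  rw [mul_assoc]
  exact mul_nonpos_of_nonneg_of_nonpos (H.w_pos i).le this

/-- The maximum principle: the set defining `K_s(x, y)` is bounded above. -/
lemma bddAbove_KSet {s : ℝ} (hs : 0 < s) (x y : V) : BddAbove (H.KSet s x y) := by
  refine ⟨∑ a, ∑ c, H.dist a c, ?_⟩
  rintro r ⟨f, hf, F, ⟨l, hl, hfl⟩, rfl⟩
  have : Nonempty V := ⟨x⟩
  obtain ⟨a, ha⟩ := Finite.exists_max (fun v => F v / H.deg v)
  obtain ⟨c, hc⟩ := Finite.exists_min (fun v => F v / H.deg v)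
  have h1 := H.lap_nonneg hl a ha
  have h2 := H.lap_nonpos hl c hc
  have h3 := hf a c
  rw [H.inner_delta] at h3 ⊢
  rw [hfl] at h3
  simp only [Pi.add_apply, Pi.smul_apply, smul_eq_mul, add_div] at h3
  have h4 : 0 ≤ s * l a / H.deg a := div_nonneg (mul_nonneg hs.le h1) (H.deg_nonneg a)
  have h5 : s * l c / H.deg c ≤ 0 :=
    div_nonpos_of_nonpos_of_nonneg (mul_nonpos_of_nonneg_of_nonpos hs.le h2) (H.deg_nonneg c)
  have h6 := ha x
  have h7 := hc y
  have h8 : H.dist a c ≤ ∑ a, ∑ c, H.dist a c := by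
    have hnn : ∀ u v, 0 ≤ H.dist u v := fun u v => Nat.cast_nonneg _
    calc H.dist a c ≤ ∑ c, H.dist a c :=
          Finset.single_le_sum (fun v _ => hnn a v) (Finset.mem_univ c)
      _ ≤ ∑ a, ∑ c, H.dist a c :=
          Finset.single_le_sum (f := fun u => ∑ c, H.dist u c)
            (fun u _ => Finset.sum_nonneg fun v _ => hnn u v) (Finset.mem_univ a)
  linarith

/-! ### Existence of the element of least norm -/

lemma continuous_inner_right (f : V → ℝ) : Continuous (fun b => H.inner f b) := by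
  unfold inner
  fun_prop

lemma isCompact_B (i : ι) : IsCompact (H.B i) := by
  have : {b : V → ℝ | ∃ x ∈ H.edge i, ∃ y ∈ H.edge i, b = delta x - delta y} ⊆
      Set.range (fun p : V × V => (delta p.1 - delta p.2 : V → ℝ)) := by
    rintro b ⟨x, _, y, _, rfl⟩
    exact ⟨(x, y), rfl⟩
  exact Set.Finite.isCompact_convexHull (𝕜 := ℝ) ((Set.finite_range _).subset this)

lemma argmaxB_nonempty (f : V → ℝ) (i : ι) : (H.argmaxB f i).Nonempty := by
  obtain ⟨x, hx⟩ := H.edge_nonempty i
  obtain ⟨b, hb, hmax⟩ := (H.isCompact_B i).exists_isMaxOn ⟨_, H.gen_mem i hx hx⟩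
    (H.continuous_inner_right f).continuousOn
  exact ⟨b, hb, fun b' hb' => hmax hb'⟩

lemma isCompact_argmaxB (f : V → ℝ) (i : ι) : IsCompact (H.argmaxB f i) := by
  have : H.argmaxB f i = H.B i ∩ ⋂ b' ∈ H.B i, {b | H.inner f b' ≤ H.inner f b} := by
    ext b
    simp only [argmaxB, Set.mem_ofPred_eq, Set.mem_inter_iff, Set.mem_iInter]
  rw [this]
  refine (H.isCompact_B i).inter_right ?_
  refine isClosed_iInter fun b' => isClosed_iInter fun _ => ?_
  exact isClosed_le continuous_const (H.continuous_inner_right f)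

/-- Every `f` has an element of least norm in `lap f`. -/
lemma exists_isLapZero (f : V → ℝ) : ∃ l, H.IsLapZero f l := by
  have hc : IsCompact (Set.pi Set.univ (fun i => H.argmaxB f i)) :=
    isCompact_univ_pi fun i => H.isCompact_argmaxB f i
  have hne : (Set.pi Set.univ (fun i => H.argmaxB f i)).Nonempty := by
    rw [Set.univ_pi_nonempty_iff]
    exact fun i => H.argmaxB_nonempty f i
  have hcont : Continuous (fun b : ι → V → ℝ => ∑ i, (H.w i * H.inner f (b i)) • b i) := by
    unfold inner
    fun_prop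
  have hcont2 : Continuous (fun b : ι → V → ℝ =>
      H.inner (∑ i, (H.w i * H.inner f (b i)) • b i) (∑ i, (H.w i * H.inner f (b i)) • b i)) := by
    have : Continuous (fun l : V → ℝ => H.inner l l) := by
      unfold inner
      fun_prop
    exact this.comp hcont
  obtain ⟨b, hb, hmin⟩ := hc.exists_isMinOn hne hcont2.continuousOn
  refine ⟨_, ⟨b, fun i => hb i (Set.mem_univ i), rfl⟩, ?_⟩
  rintro l' ⟨b', hb', rfl⟩
  exact hmin (fun i _ => hb' i)

/-- The variational inequality for the element of least norm. -/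
lemma variational {f l : V → ℝ} (hmin : ∀ l' ∈ H.lap f, H.inner l l ≤ H.inner l' l')
    {b : ι → V → ℝ} (hb : ∀ i, b i ∈ H.argmaxB f i)
    (hl : l = ∑ i, (H.w i * H.inner f (b i)) • b i) (j : ι) {b' : V → ℝ}
    (hb' : b' ∈ H.argmaxB f j) (hpos : 0 < H.inner f (b j)) :
    H.inner l (b j) ≤ H.inner l b' := by
  classical
  have hval : H.inner f b' = H.inner f (b j) :=
    le_antisymm ((hb j).2 _ hb'.1) (hb'.2 _ (hb j).1)
  set m := H.inner f (b j) with hm
  have hW : 0 < H.w j * m := mul_pos (H.w_pos j) hpos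
  set W := H.w j * m with hWdef
  -- the segment from `l`
  have key : ∀ t : ℝ, 0 < t → t ≤ 1 →
      0 ≤ 2 * (W * (H.inner l b' - H.inner l (b j))) +
        t * (W ^ 2 * H.inner (b' - b j) (b' - b j)) := by
    intro t ht0 ht1
    have hmem : l + (t * W) • (b' - b j) ∈ H.lap f := by
      refine ⟨Function.update b j ((1 - t) • b j + t • b'), ?_, ?_⟩
      · intro i
        by_cases hij : i = j
        · subst hij
          rw [Function.update_self]
          refine ⟨?_, ?_⟩
          · exact (convex_convexHull ℝ _) (hb i).1 hb'.1 (by linarith) ht0.le (by ring)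
          · intro b'' hb''
            rw [inner_add_right, inner_smul_right, inner_smul_right, hval]
            have := (hb i).2 b'' hb''
            linarith
        · rw [Function.update_of_ne hij]
          exact hb i
      · rw [hl]
        have hsplit : ∀ c : ι → V → ℝ, ∑ i, (H.w i * H.inner f (c i)) • c i =
            (H.w j * H.inner f (c j)) • c j +
              ∑ i ∈ Finset.univ.erase j, (H.w i * H.inner f (c i)) • c i := by
          intro c
          exact (Finset.add_sum_erase _ (fun i => (H.w i * H.inner f (c i)) • c i)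
            (Finset.mem_univ j)).symm
        rw [hsplit b, hsplit (Function.update b j ((1 - t) • b j + t • b'))]
        have hrest : ∑ i ∈ Finset.univ.erase j,
            (H.w i * H.inner f (Function.update b j ((1 - t) • b j + t • b') i)) •
              Function.update b j ((1 - t) • b j + t • b') i
            = ∑ i ∈ Finset.univ.erase j, (H.w i * H.inner f (b i)) • b i := by
          refine Finset.sum_congr rfl fun i hi => ?_
          rw [Function.update_of_ne (Finset.ne_of_mem_erase hi)]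
        rw [hrest, Function.update_self, inner_add_right, inner_smul_right, inner_smul_right,
          hval]
        funext v
        simp only [Pi.add_apply, Pi.smul_apply, Pi.sub_apply, smul_eq_mul, hWdef, ← hm]
        ring
    have h := hmin _ hmem
    have hexp : H.inner (l + (t * W) • (b' - b j)) (l + (t * W) • (b' - b j)) =
        H.inner l l + 2 * (t * W) * (H.inner l b' - H.inner l (b j)) +
          (t * W) ^ 2 * H.inner (b' - b j) (b' - b j) := by
      have hsub : H.inner l (b' - b j) = H.inner l b' - H.inner l (b j) := by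
        have := H.inner_add_right l (b' - b j) (b j)
        rw [sub_add_cancel] at this
        linarith
      rw [← hsub]
      unfold inner
      rw [Finset.mul_sum, Finset.mul_sum, ← Finset.sum_add_distrib, ← Finset.sum_add_distrib]
      refine Finset.sum_congr rfl fun v _ => ?_
      simp only [Pi.add_apply, Pi.smul_apply, Pi.sub_apply, smul_eq_mul]
      ring
    rw [hexp] at h
    have h' : 0 ≤ t * (2 * (W * (H.inner l b' - H.inner l (b j))) +
        t * (W ^ 2 * H.inner (b' - b j) (b' - b j))) := by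
      have e : t * (2 * (W * (H.inner l b' - H.inner l (b j))) +
        t * (W ^ 2 * H.inner (b' - b j) (b' - b j))) =
        2 * (t * W) * (H.inner l b' - H.inner l (b j)) +
          (t * W) ^ 2 * H.inner (b' - b j) (b' - b j) := by ring
      rw [e]
      linarith
    exact nonneg_of_mul_nonneg_right h' ht0
  by_contra hcon
  have hneg : H.inner l b' - H.inner l (b j) < 0 := by linarith
  set D := W ^ 2 * H.inner (b' - b j) (b' - b j) with hD
  set A := -(W * (H.inner l b' - H.inner l (b j))) with hA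
  have hApos : 0 < A := by
    have := mul_neg_of_pos_of_neg hW hneg
    linarith
  have hDle : 0 < |D| + 1 := by positivity
  have ht : 0 < min 1 (A / (|D| + 1)) := lt_min one_pos (div_pos hApos hDle)
  have h := key _ ht (min_le_left _ _)
  have h1 : min 1 (A / (|D| + 1)) * D ≤ A := by
    calc min 1 (A / (|D| + 1)) * D ≤ min 1 (A / (|D| + 1)) * (|D| + 1) := by
          refine mul_le_mul_of_nonneg_left ?_ ht.le
          linarith [le_abs_self D]
      _ ≤ A / (|D| + 1) * (|D| + 1) :=
          mul_le_mul_of_nonneg_right (min_le_right _ _) hDle.le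
      _ = A := div_mul_cancel₀ _ hDle.ne'
  linarith

/-- In a connected hypergraph the Lipschitz condition can be checked on the hyperedges. -/
lemma lip_of_edges (hconn : H.graph.Connected) (f : V → ℝ)
    (h : ∀ i, ∀ x ∈ H.edge i, ∀ y ∈ H.edge i, f x / H.deg x - f y / H.deg y ≤ 1) :
    f ∈ H.Lip := by
  intro x y
  rw [H.inner_delta]
  obtain ⟨p, hp⟩ := hconn.exists_walk_length_eq_dist x y
  unfold dist
  rw [← hp]
  clear hp
  induction p with
  | nil => simp
  | cons hadj p ih =>
    have hadj' := hadj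
    obtain ⟨_, i, hu, hv⟩ := hadj'
    have h1 := h i _ hu _ hv
    simp only [SimpleGraph.Walk.length_cons]
    push_cast
    linarith

/-- The contribution of a hyperedge with two elements. -/
lemma two {f : V → ℝ} {i : ι} {b : V → ℝ} (hb : b ∈ H.argmaxB f i) {a c : V} (hac : a ≠ c)
    (hi : H.edge i = {a, c}) :
    H.inner f b * b a = f a / H.deg a - f c / H.deg c := by
  have ha : a ∈ H.edge i := by rw [hi]; simp
  have hc : c ∈ H.edge i := by rw [hi]; simp
  have hsum : b a + b c = 0 := by
    have h1 := H.B_sum i b hb.1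
    rw [← Finset.sum_subset (Finset.subset_univ {a, c})] at h1
    · rwa [Finset.sum_pair hac] at h1
    · intro v _ hv
      exact H.B_supp i b hb.1 v (by rw [hi]; exact hv)
  have hval : H.inner f b = (f a / H.deg a - f c / H.deg c) * b a := by
    rw [inner_eq]
    rw [← Finset.sum_subset (Finset.subset_univ {a, c})]
    · rw [Finset.sum_pair hac]
      have : b c = -b a := by linarith
      rw [this]; ring
    · intro v _ hv
      rw [H.B_supp i b hb.1 v (by rw [hi]; exact hv)]
      simp
  have habs := H.B_abs i b hb.1 a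
  have h1 := H.gen_le hb ha hc
  have h2 := H.gen_le hb hc ha
  set A := f a / H.deg a with hA
  set A' := f c / H.deg c with hA'
  rw [hval] at h1 h2 ⊢
  have habs' := abs_le.1 habs
  rcases lt_trichotomy A A' with h | h | h
  · have : b a = -1 := by nlinarith
    rw [this]; ring
  · rw [h]; ring
  · have : b a = 1 := by nlinarith
    rw [this]; ring

end WHypergraph

/-! ## The hypergraph

The vertices are `x = 0`, `u = 1`, `p = 2`, `v = 3`, `y = 4`, `z = 5`, `t = 6`. -/

/-- The six hyperedges. -/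
def edges : Fin 6 → Finset (Fin 7) :=
  ![{0, 5}, {2, 3}, {0, 6}, {1, 6}, {0, 1, 2}, {5, 4, 3}]

/-- The weights. -/
def weights : Fin 6 → ℝ := ![1, 1, 20, 35, 10, 10]

/-- The hypergraph of the counterexample. -/
def H0 : WHypergraph (Fin 7) (Fin 6) where
  edge := edges
  edge_nonempty := by decide
  edge_injective := by decide
  w := weights
  w_pos := by
    intro i
    fin_cases i <;> norm_num [weights]

lemma e0 : H0.edge 0 = {0, 5} := rfl
lemma e1 : H0.edge 1 = {2, 3} := rfl
lemma e2 : H0.edge 2 = {0, 6} := rfl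
lemma e3 : H0.edge 3 = {1, 6} := rfl
lemma e4 : H0.edge 4 = {0, 1, 2} := rfl
lemma e5 : H0.edge 5 = {5, 4, 3} := rfl
lemma w0 : H0.w 0 = 1 := rfl
lemma w1 : H0.w 1 = 1 := rfl
lemma w2 : H0.w 2 = 20 := rfl
lemma w3 : H0.w 3 = 35 := rfl
lemma w4 : H0.w 4 = 10 := rfl
lemma w5 : H0.w 5 = 10 := rfl

lemma d0 : H0.deg 0 = 31 := by
  simp [WHypergraph.deg, Fin.sum_univ_six, e0, e1, e2, e3, e4, e5, w0, w1, w2, w3, w4, w5]
  norm_num
lemma d1 : H0.deg 1 = 45 := by
  simp [WHypergraph.deg, Fin.sum_univ_six, e0, e1, e2, e3, e4, e5, w0, w1, w2, w3, w4, w5]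
  norm_num
lemma d2 : H0.deg 2 = 11 := by
  simp [WHypergraph.deg, Fin.sum_univ_six, e0, e1, e2, e3, e4, e5, w0, w1, w2, w3, w4, w5]
  norm_num
lemma d3 : H0.deg 3 = 11 := by
  simp [WHypergraph.deg, Fin.sum_univ_six, e0, e1, e2, e3, e4, e5, w0, w1, w2, w3, w4, w5]
  norm_num
lemma d4 : H0.deg 4 = 10 := by
  simp [WHypergraph.deg, Fin.sum_univ_six, e0, e1, e2, e3, e4, e5, w0, w1, w2, w3, w4, w5]
lemma d5 : H0.deg 5 = 11 := by
  simp [WHypergraph.deg, Fin.sum_univ_six, e0, e1, e2, e3, e4, e5, w0, w1, w2, w3, w4, w5]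
  norm_num
lemma d6 : H0.deg 6 = 55 := by
  simp [WHypergraph.deg, Fin.sum_univ_six, e0, e1, e2, e3, e4, e5, w0, w1, w2, w3, w4, w5]
  norm_num

lemma adj05 : H0.graph.Adj 0 5 := ⟨by decide, 0, by decide, by decide⟩
lemma adj54 : H0.graph.Adj 5 4 := ⟨by decide, 5, by decide, by decide⟩

lemma conn : H0.graph.Connected := by
  have h01 : H0.graph.Adj 0 1 := ⟨by decide, 4, by decide, by decide⟩
  have h02 : H0.graph.Adj 0 2 := ⟨by decide, 4, by decide, by decide⟩
  have h23 : H0.graph.Adj 2 3 := ⟨by decide, 1, by decide, by decide⟩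
  have h06 : H0.graph.Adj 0 6 := ⟨by decide, 2, by decide, by decide⟩
  have key : ∀ v, H0.graph.Reachable 0 v := by
    intro v
    fin_cases v
    · exact SimpleGraph.Reachable.refl _
    · exact h01.reachable
    · exact h02.reachable
    · exact h02.reachable.trans h23.reachable
    · exact adj05.reachable.trans adj54.reachable
    · exact adj05.reachable
    · exact h06.reachable
  rw [SimpleGraph.connected_iff]
  exact ⟨fun u v => (key u).symm.trans (key v), ⟨0⟩⟩

lemma nadj04 : ¬ H0.graph.Adj 0 4 := by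
  rintro ⟨_, i, h1, h2⟩
  have : ∀ i : Fin 6, ¬ ((0 : Fin 7) ∈ edges i ∧ (4 : Fin 7) ∈ edges i) := by decide
  exact this i ⟨h1, h2⟩

lemma dist04 : H0.dist 0 4 = 2 := by
  have h1 : H0.graph.dist 0 4 ≤ 2 := by
    have := SimpleGraph.dist_le (SimpleGraph.Walk.cons adj05 (SimpleGraph.Walk.cons adj54
      SimpleGraph.Walk.nil))
    simpa using this
  have h2 : H0.graph.dist 0 4 ≠ 0 := by
    intro h
    have := (conn.dist_eq_zero_iff).1 h
    exact absurd this (by decide)
  have h3 : H0.graph.dist 0 4 ≠ 1 := by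
    intro h
    exact nadj04 (SimpleGraph.dist_eq_one_iff_adj.1 h)
  have : H0.graph.dist 0 4 = 2 := by omega
  unfold WHypergraph.dist
  rw [this]; norm_num

/-- The Lipschitz condition on a hyperedge. -/
lemma lip_edge {f : Fin 7 → ℝ} (hf : f ∈ H0.Lip) (i : Fin 6) {a c : Fin 7}
    (ha : a ∈ H0.edge i) (hc : c ∈ H0.edge i) : f a / H0.deg a - f c / H0.deg c ≤ 1 := by
  by_cases hac : a = c
  · rw [hac]; linarith
  · have h := hf a c
    rw [H0.inner_delta] at h
    have hd : H0.graph.dist a c ≤ 1 := by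
      have hadj : H0.graph.Adj a c := ⟨hac, i, ha, hc⟩
      exact (SimpleGraph.dist_eq_one_iff_adj.2 hadj).le
    have hd' : H0.dist a c ≤ 1 := by
      unfold WHypergraph.dist
      exact_mod_cast hd
    linarith

/-- The sum of the coordinates over a hyperedge with three elements. -/
lemma three {f : Fin 7 → ℝ} {b : Fin 7 → ℝ} (i : Fin 6) (hb : b ∈ H0.argmaxB f i)
    {p q r : Fin 7} (hpq : p ≠ q) (hpr : p ≠ r) (hqr : q ≠ r) (hi : H0.edge i = {p, q, r}) :
    b p + b q + b r = 0 ∧ H0.inner f b = f p / H0.deg p * b p + f q / H0.deg q * b q +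
      f r / H0.deg r * b r := by
  have e : ∀ g : Fin 7 → ℝ, (∀ v, v ∉ H0.edge i → g v = 0) → ∑ v, g v = g p + g q + g r := by
    intro g hg
    rw [← Finset.sum_subset (Finset.subset_univ {p, q, r})]
    · rw [Finset.sum_insert (by simp [hpq, hpr]), Finset.sum_pair hqr]
      ring
    · intro v _ hv
      exact hg v (by rw [hi]; exact hv)
  have hz : ∀ v, v ∉ H0.edge i → b v = 0 := fun v hv => H0.B_supp i b hb.1 v hv
  constructor
  · rw [← e b hz]
    exact H0.B_sum i b hb.1
  · rw [H0.inner_eq, e _ (fun v hv => by rw [hz v hv]; ring)]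

lemma ne01 : (0 : Fin 7) ≠ 1 := by decide
lemma ne02 : (0 : Fin 7) ≠ 2 := by decide
lemma ne12 : (1 : Fin 7) ≠ 2 := by decide
lemma ne54 : (5 : Fin 7) ≠ 4 := by decide
lemma ne53 : (5 : Fin 7) ≠ 3 := by decide
lemma ne43 : (4 : Fin 7) ≠ 3 := by decide

set_option maxHeartbeats 4000000 in
/-- The lower bound for `⟨L⁰ f, δ_x - δ_y⟩`. -/
lemma lower {r : ℝ} (hr : r ∈ H0.CSet 0 4) : 11 / 21 - 44 / 76 ≤ r := by
  obtain ⟨f, ⟨hf, hfd⟩, l, ⟨⟨b, hb, hl⟩, hmin⟩, rfl⟩ := hr
  rw [H0.inner_delta, dist04] at hfd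
  rw [H0.inner_delta]
  -- the values
  obtain ⟨g, hg⟩ : ∃ g : Fin 7 → ℝ, ∀ v, f v / H0.deg v = g v := ⟨_, fun _ => rfl⟩
  have L : ∀ (i : Fin 6) {a c : Fin 7}, a ∈ H0.edge i → c ∈ H0.edge i → g a - g c ≤ 1 := by
    intro i a c ha hc
    rw [← hg, ← hg]
    exact lip_edge hf i ha hc
  rw [hg, hg] at hfd
  have x05 := L 0 (a := 0) (c := 5) (by decide) (by decide)
  have x54 := L 5 (a := 5) (c := 4) (by decide) (by decide)
  have x02 := L 4 (a := 0) (c := 2) (by decide) (by decide)
  have x23 := L 1 (a := 2) (c := 3) (by decide) (by decide)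
  have x34 := L 5 (a := 3) (c := 4) (by decide) (by decide)
  have x53 := L 5 (a := 5) (c := 3) (by decide) (by decide)
  have x01 := L 4 (a := 0) (c := 1) (by decide) (by decide)
  have x12 := L 4 (a := 1) (c := 2) (by decide) (by decide)
  have x60 := L 2 (a := 6) (c := 0) (by decide) (by decide)
  have hz : g 5 = g 4 + 1 := by linarith
  have hx : g 0 = g 4 + 2 := by linarith
  have hv0 : g 4 ≤ g 3 := by linarith
  -- the contributions of the small hyperedges
  have c0a := H0.two (hb 0) (a := 0) (c := 5) (by decide) e0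
  have c1a := H0.two (hb 1) (a := 3) (c := 2) (by decide) (by rw [e1]; decide)
  have c2a := H0.two (hb 2) (a := 0) (c := 6) (by decide) e2
  have c3a := H0.two (hb 3) (a := 1) (c := 6) (by decide) e3
  rw [hg, hg] at c0a c1a c2a c3a
  -- the coordinates of `l`
  have z : ∀ (i : Fin 6) (v : Fin 7), v ∉ H0.edge i → b i v = 0 :=
    fun i v hv => H0.B_supp i _ (hb i).1 v hv
  have l0 : l 0 = 1 * (g 0 - g 5) + 20 * (g 0 - g 6) + 10 * (H0.inner f (b 4) * b 4 0) := by
    rw [hl]
    simp only [Finset.sum_apply, Pi.smul_apply, smul_eq_mul, Fin.sum_univ_six, w0, w1, w2, w3,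
      w4, w5]
    rw [z 1 0 (by decide), z 3 0 (by decide), z 5 0 (by decide), ← c0a, ← c2a]
    ring
  have l1 : l 1 = 35 * (g 1 - g 6) + 10 * (H0.inner f (b 4) * b 4 1) := by
    rw [hl]
    simp only [Finset.sum_apply, Pi.smul_apply, smul_eq_mul, Fin.sum_univ_six, w0, w1, w2, w3,
      w4, w5]
    rw [z 0 1 (by decide), z 1 1 (by decide), z 2 1 (by decide), z 5 1 (by decide), ← c3a]
    ring
  have l3 : l 3 = 1 * (g 3 - g 2) + 10 * (H0.inner f (b 5) * b 5 3) := by
    rw [hl]
    simp only [Finset.sum_apply, Pi.smul_apply, smul_eq_mul, Fin.sum_univ_six, w0, w1, w2, w3,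
      w4, w5]
    rw [z 0 3 (by decide), z 2 3 (by decide), z 3 3 (by decide), z 4 3 (by decide), ← c1a]
    ring
  have l4 : l 4 = 10 * (H0.inner f (b 5) * b 5 4) := by
    rw [hl]
    simp only [Finset.sum_apply, Pi.smul_apply, smul_eq_mul, Fin.sum_univ_six, w0, w1, w2, w3,
      w4, w5]
    rw [z 0 4 (by decide), z 1 4 (by decide), z 2 4 (by decide), z 3 4 (by decide),
      z 4 4 (by decide)]
    ring
  -- the two big hyperedges
  obtain ⟨s4, v4⟩ := three 4 (hb 4) ne01 ne02 ne12 e4
  obtain ⟨s5, v5⟩ := three 5 (hb 5) ne54 ne53 ne43 e5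
  rw [hg, hg, hg] at v4 v5
  have m5 : H0.inner f (b 5) = 1 := by
    apply le_antisymm
    · exact H0.inner_le f 5 1 (fun x hx y hy => lip_edge hf 5 hx hy) _ (hb 5).1
    · have := H0.gen_le (hb 5) (x := 5) (y := 4) (by decide) (by decide)
      rw [hg, hg] at this
      linarith
  have b50 : 0 ≤ b 5 5 := by
    refine H0.nonneg_of_not_min (hb 5) 5 (by decide) 4 (by decide) ?_
    rw [hg, hg]; linarith
  have b54 : b 5 4 ≤ 0 := by
    refine H0.nonpos_of_not_max (hb 5) 4 (by decide) 5 (by decide) ?_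
    rw [hg, hg]; linarith
  have habs40 := abs_le.1 (H0.B_abs 4 _ (hb 4).1 0)
  have habs55 := abs_le.1 (H0.B_abs 5 _ (hb 5).1 5)
  have m4le : H0.inner f (b 4) ≤ 1 :=
    H0.inner_le f 4 1 (fun x hx y hy => lip_edge hf 4 hx hy) _ (hb 4).1
  have m4nn : 0 ≤ H0.inner f (b 4) := H0.zero_le_argmax (hb 4)
  have m4ge := H0.gen_le (hb 4) (x := 0) (y := 2) (by decide) (by decide)
  rw [hg, hg] at m4ge
  rw [d0, d4]
  rcases hv0.lt_or_eq with hlt | heq
  · -- the case `g v > g y`
    have b53 : 0 ≤ b 5 3 := by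
      refine H0.nonneg_of_not_min (hb 5) 3 (by decide) 4 (by decide) ?_
      rw [hg, hg]; exact hlt
    have habs54 := abs_le.1 (H0.B_abs 5 _ (hb 5).1 4)
    -- `b 5 4 = -1`
    have hb54 : b 5 4 = -1 := by
      rw [m5] at v5
      rw [hz] at v5
      have : b 5 5 + (g 3 - g 4) * b 5 3 = 1 := by
        have e : g 4 * (b 5 5 + b 5 4 + b 5 3) = 0 := by rw [s5]; ring
        linarith
      have h34 : g 3 - g 4 ≤ 1 := x34
      have h5 : (g 3 - g 4) * b 5 3 ≤ b 5 3 := by nlinarith
      linarith [habs54.1]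
    rw [l4, m5, hb54, l0]
    have hle : -1 ≤ H0.inner f (b 4) * b 4 0 := by
      nlinarith [habs40.1, habs40.2]
    have h6 : g 6 - g 0 ≤ 1 := x60
    have h7 : g 0 - g 5 = 1 := by linarith
    rw [h7]
    linarith
  · -- the case `g v = g y`
    have hp : g 2 = g 4 + 1 := by linarith
    have m4 : H0.inner f (b 4) = 1 := by linarith
    have b53 : b 5 3 ≤ 0 := by
      refine H0.nonpos_of_not_max (hb 5) 3 (by decide) 5 (by decide) ?_
      rw [hg, hg]; linarith
    have hb55 : b 5 5 = 1 := by
      rw [m5, hz, ← heq] at v5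
      have e : g 4 * (b 5 5 + b 5 4 + b 5 3) = 0 := by rw [s5]; ring
      linarith
    have b40 : 0 ≤ b 4 0 := by
      refine H0.nonneg_of_not_min (hb 4) 0 (by decide) 2 (by decide) ?_
      rw [hg, hg]; linarith
    -- the lower end
    have hy : l 4 / 10 ≤ -(11 / 21) := by
      rw [l4, m5]
      rcases b53.lt_or_eq with hb3 | hb3
      · have hvar := H0.variational hmin hb hl 5 (b' := delta 5 - delta 4)
          ⟨H0.gen_mem 5 (by decide) (by decide), fun b' hb' => by
            rw [H0.inner_delta, hg, hg]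
            have := H0.inner_le f 5 1 (fun x hx y hy => lip_edge hf 5 hx hy) _ hb'
            linarith⟩ (by rw [m5]; norm_num)
        rw [H0.inner_delta, H0.inner_eq] at hvar
        have e : ∑ v, l v / H0.deg v * b 5 v = l 5 / H0.deg 5 * b 5 5 +
            l 4 / H0.deg 4 * b 5 4 + l 3 / H0.deg 3 * b 5 3 := by
          simp only [Fin.sum_univ_seven]
          rw [z 5 0 (by decide), z 5 1 (by decide), z 5 2 (by decide), z 5 6 (by decide)]
          ring
        rw [e, hb55, l3, l4, m5, d3, d4, d5] at hvar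
        have hb4 : b 5 4 = -1 - b 5 3 := by linarith
        have h32 : g 3 - g 2 = -1 := by linarith
        rw [h32, hb4] at hvar
        rw [hb4]
        have hfac : 0 ≤ b 5 3 * (-(21 / 11) * b 5 3 - 1 + 1 / 11) := by linarith
        have : -(21 / 11) * b 5 3 - 1 + 1 / 11 ≤ 0 := by
          by_contra hcon
          push Not at hcon
          nlinarith
        linarith
      · have hb4 : b 5 4 = -1 := by linarith
        rw [hb4]
        norm_num
    -- the upper end
    have hxx : -(44 / 76) ≤ l 0 / 31 := by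
      rw [l0, m4]
      have h05 : g 0 - g 5 = 1 := by linarith
      rw [h05]
      have hu : g 1 ≤ g 0 := by linarith
      rcases hu.lt_or_eq with hlt | heq1
      · have b41 : g 1 - g 0 < 0 := by linarith
        -- `b 4 0 = 1`
        have hb40 : b 4 0 = 1 := by
          rw [m4, hx, hp] at v4
          have e : (g 4 + 1) * (b 4 0 + b 4 1 + b 4 2) = 0 := by rw [s4]; ring
          have h1 : b 4 0 + (g 1 - g 4 - 1) * b 4 1 = 1 := by linarith
          have h2 : b 4 1 ≤ 0 := by
            refine H0.nonpos_of_not_max (hb 4) 1 (by decide) 0 (by decide) ?_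
            rw [hg, hg]; exact hlt
          have h3 : 0 ≤ g 1 - g 4 - 1 := by linarith
          have h4 : (g 1 - g 4 - 1) * b 4 1 ≤ 0 := mul_nonpos_of_nonneg_of_nonpos h3 h2
          linarith [habs40.2]
        rw [hb40]
        linarith
      · have b41 : 0 ≤ b 4 1 := by
          refine H0.nonneg_of_not_min (hb 4) 1 (by decide) 2 (by decide) ?_
          rw [hg, hg]; linarith
        have hsum : b 4 0 + b 4 1 = 1 := by
          rw [m4, heq1, hx, hp] at v4
          have e : (g 4 + 1) * (b 4 0 + b 4 1 + b 4 2) = 0 := by rw [s4]; ring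
          linarith
        rcases b41.lt_or_eq with hpos | h0
        · have hvar := H0.variational hmin hb hl 4 (b' := delta 0 - delta 2)
            ⟨H0.gen_mem 4 (by decide) (by decide), fun b' hb' => by
              rw [H0.inner_delta, hg, hg]
              have := H0.inner_le f 4 1 (fun x hx y hy => lip_edge hf 4 hx hy) _ hb'
              linarith⟩ (by rw [m4]; norm_num)
          rw [H0.inner_delta, H0.inner_eq] at hvar
          have e : ∑ v, l v / H0.deg v * b 4 v = l 0 / H0.deg 0 * b 4 0 +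
              l 1 / H0.deg 1 * b 4 1 + l 2 / H0.deg 2 * b 4 2 := by
            simp only [Fin.sum_univ_seven]
            rw [z 4 3 (by decide), z 4 4 (by decide), z 4 5 (by decide), z 4 6 (by decide)]
            ring
          have hb42 : b 4 2 = -1 := by linarith
          have hb40 : b 4 0 = 1 - b 4 1 := by linarith
          rw [e, hb42] at hvar
          have hfac : 0 ≤ b 4 1 * (l 0 / 31 - l 1 / 45) := by
            rw [d0, d1, d2, hb40] at hvar
            linarith
          have hge : 0 ≤ l 0 / 31 - l 1 / 45 := by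
            exact nonneg_of_mul_nonneg_right hfac hpos
          rw [l0, l1, m4, h05, heq1, hb40] at hge
          rw [hb40]
          linarith
        · have : b 4 0 = 1 := by linarith
          rw [this]
          linarith
    linarith

/-! ## The test functions -/

/-- The first order coefficients. -/
noncomputable def cc : Fin 7 → ℝ :=
  ![19 / 31 - 1 / 1000, 19 / 31 - 1 / 1000, 16 / 279 - 1 / 2000 + 9 / 11, 3245 / 5859,
    3245 / 5859, -(1 / 2000) - 9 / 11, -1 - 3 / 2000]

/-- The values at `s = 0`. -/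
def g0 : Fin 7 → ℝ := ![2, 2, 1, 0, 0, 1, 3]

/-- The degrees. -/
def dd : Fin 7 → ℝ := ![31, 45, 11, 11, 10, 11, 55]

lemma dd_eq (v : Fin 7) : H0.deg v = dd v := by
  fin_cases v
  · exact d0
  · exact d1
  · exact d2
  · exact d3
  · exact d4
  · exact d5
  · exact d6

lemma dd_pos (v : Fin 7) : 0 < dd v := by
  fin_cases v <;> norm_num [dd]

/-- The function `F_s`. -/
noncomputable def Fs (s : ℝ) : Fin 7 → ℝ := fun v => dd v * (g0 v + s * cc v)

lemma Fs_div (s : ℝ) (v : Fin 7) : Fs s v / H0.deg v = g0 v + s * cc v := by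
  rw [dd_eq, Fs]
  field_simp [(dd_pos v).ne']

/-- The chosen maximisers. -/
noncomputable def bb : Fin 6 → Fin 7 → ℝ :=
  ![delta 0 - delta 5, delta 2 - delta 3, delta 6 - delta 0, delta 6 - delta 1,
    delta 1 - delta 2, (3245 / 5859 : ℝ) • (delta 5 - delta 4) +
      (2614 / 5859 : ℝ) • (delta 5 - delta 3)]

lemma bb_mem {s : ℝ} (hs : 0 < s) (hs1 : s < 1 / 10000) (i : Fin 6) :
    bb i ∈ H0.argmaxB (Fs s) i := by
  have key : ∀ (j : Fin 6) (p q : Fin 7), p ∈ H0.edge j → q ∈ H0.edge j →
      (∀ a ∈ H0.edge j, ∀ c ∈ H0.edge j, (g0 a + s * cc a) - (g0 c + s * cc c) ≤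
        (g0 p + s * cc p) - (g0 q + s * cc q)) →
      (delta p - delta q : Fin 7 → ℝ) ∈ H0.argmaxB (Fs s) j := by
    intro j p q hp hq h
    refine ⟨H0.gen_mem j hp hq, fun b' hb' => ?_⟩
    rw [H0.inner_delta, Fs_div, Fs_div]
    refine H0.inner_le _ j _ ?_ b' hb'
    intro a ha c hc
    rw [Fs_div, Fs_div]
    exact h a ha c hc
  fin_cases i
  · refine key 0 0 5 (by decide) (by decide) ?_
    intro a ha c hc
    rw [e0] at ha hc
    simp only [Finset.mem_insert, Finset.mem_singleton] at ha hc
    rcases ha with rfl | rfl <;> rcases hc with rfl | rfl <;> simp [g0, cc] <;> linarith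
  · refine key 1 2 3 (by decide) (by decide) ?_
    intro a ha c hc
    rw [e1] at ha hc
    simp only [Finset.mem_insert, Finset.mem_singleton] at ha hc
    rcases ha with rfl | rfl <;> rcases hc with rfl | rfl <;> simp [g0, cc] <;> linarith
  · refine key 2 6 0 (by decide) (by decide) ?_
    intro a ha c hc
    rw [e2] at ha hc
    simp only [Finset.mem_insert, Finset.mem_singleton] at ha hc
    rcases ha with rfl | rfl <;> rcases hc with rfl | rfl <;> simp [g0, cc] <;> linarith
  · refine key 3 6 1 (by decide) (by decide) ?_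
    intro a ha c hc
    rw [e3] at ha hc
    simp only [Finset.mem_insert, Finset.mem_singleton] at ha hc
    rcases ha with rfl | rfl <;> rcases hc with rfl | rfl <;> simp [g0, cc] <;> linarith
  · refine key 4 1 2 (by decide) (by decide) ?_
    intro a ha c hc
    rw [e4] at ha hc
    simp only [Finset.mem_insert, Finset.mem_singleton] at ha hc
    rcases ha with rfl | rfl | rfl <;> rcases hc with rfl | rfl | rfl <;> simp [g0, cc] <;>
      linarith
  · have h1 : (delta 5 - delta 4 : Fin 7 → ℝ) ∈ H0.argmaxB (Fs s) 5 := by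
      refine key 5 5 4 (by decide) (by decide) ?_
      intro a ha c hc
      rw [e5] at ha hc
      simp only [Finset.mem_insert, Finset.mem_singleton] at ha hc
      rcases ha with rfl | rfl | rfl <;> rcases hc with rfl | rfl | rfl <;> simp [g0, cc] <;>
        linarith
    have h2 : (delta 5 - delta 3 : Fin 7 → ℝ) ∈ H0.argmaxB (Fs s) 5 := by
      refine key 5 5 3 (by decide) (by decide) ?_
      intro a ha c hc
      rw [e5] at ha hc
      simp only [Finset.mem_insert, Finset.mem_singleton] at ha hc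
      rcases ha with rfl | rfl | rfl <;> rcases hc with rfl | rfl | rfl <;> simp [g0, cc] <;>
        linarith
    show ((3245 / 5859 : ℝ) • (delta 5 - delta 4) +
      (2614 / 5859 : ℝ) • (delta 5 - delta 3) : Fin 7 → ℝ) ∈ H0.argmaxB (Fs s) 5
    refine ⟨?_, ?_⟩
    · exact (convex_convexHull ℝ _) h1.1 h2.1 (by norm_num) (by norm_num) (by norm_num)
    · intro b' hb'
      have a1 := h1.2 b' hb'
      have a2 := h2.2 b' hb'
      rw [H0.inner_add_right, H0.inner_smul_right, H0.inner_smul_right]
      linarith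

/-- The values of the maxima. -/
noncomputable def mm (s : ℝ) : Fin 6 → ℝ :=
  ![1 + s * (cc 0 - cc 5), 1 + s * (cc 2 - cc 3), 1 + s * (cc 6 - cc 0), 1 + s * (cc 6 - cc 1),
    1 + s * (cc 1 - cc 2), 1 + s * (cc 5 - cc 4)]

lemma inner_bb (s : ℝ) (i : Fin 6) : H0.inner (Fs s) (bb i) = mm s i := by
  fin_cases i
  · show H0.inner (Fs s) (delta 0 - delta 5) = _
    rw [H0.inner_delta, Fs_div, Fs_div]
    simp [mm, g0]; ring
  · show H0.inner (Fs s) (delta 2 - delta 3) = _
    rw [H0.inner_delta, Fs_div, Fs_div]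
    simp [mm, g0]; ring
  · show H0.inner (Fs s) (delta 6 - delta 0) = _
    rw [H0.inner_delta, Fs_div, Fs_div]
    simp [mm, g0]; ring
  · show H0.inner (Fs s) (delta 6 - delta 1) = _
    rw [H0.inner_delta, Fs_div, Fs_div]
    simp [mm, g0]; ring
  · show H0.inner (Fs s) (delta 1 - delta 2) = _
    rw [H0.inner_delta, Fs_div, Fs_div]
    simp [mm, g0]; ring
  · show H0.inner (Fs s) ((3245 / 5859 : ℝ) • (delta 5 - delta 4) +
      (2614 / 5859 : ℝ) • (delta 5 - delta 3)) = _
    rw [H0.inner_add_right, H0.inner_smul_right, H0.inner_smul_right, H0.inner_delta,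
      H0.inner_delta, Fs_div, Fs_div, Fs_div]
    simp [mm, g0, cc]; ring

/-- The element of the Laplacian. -/
noncomputable def ll (s : ℝ) : Fin 7 → ℝ :=
  ![mm s 0 - 20 * mm s 2, -35 * mm s 3 + 10 * mm s 4, mm s 1 - 10 * mm s 4,
    -mm s 1 - 10 * mm s 5 * (2614 / 5859), -10 * mm s 5 * (3245 / 5859),
    -mm s 0 + 10 * mm s 5, 20 * mm s 2 + 35 * mm s 3]

lemma ll_mem {s : ℝ} (hs : 0 < s) (hs1 : s < 1 / 10000) : ll s ∈ H0.lap (Fs s) := by
  refine ⟨bb, bb_mem hs hs1, ?_⟩
  have h : ∀ i, (H0.w i * H0.inner (Fs s) (bb i)) • bb i = (H0.w i * mm s i) • bb i := by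
    intro i
    rw [inner_bb]
  rw [Finset.sum_congr rfl (fun i _ => h i)]
  funext v
  simp only [Finset.sum_apply, Pi.smul_apply, smul_eq_mul, Fin.sum_univ_six, w0, w1, w2, w3,
    w4, w5]
  fin_cases v <;> simp [ll, bb, delta, Pi.single_apply] <;> ring

lemma test_lip {s : ℝ} (hs : 0 < s) (hs1 : s < 1 / 10000) :
    Fs s + s • ll s ∈ H0.Lip := by
  apply H0.lip_of_edges conn
  have hval : ∀ v, (Fs s + s • ll s) v / H0.deg v = g0 v + s * cc v + s * ll s v / dd v := by
    intro v
    rw [Pi.add_apply, add_div, Fs_div, dd_eq, Pi.smul_apply, smul_eq_mul]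
  have hss : s * s ≤ s * (1 / 10000) := mul_le_mul_of_nonneg_left hs1.le hs.le
  have hss0 : 0 < s * s := mul_pos hs hs
  intro i x hx y hy
  rw [hval, hval]
  fin_cases i
  · replace hx : x ∈ H0.edge 0 := hx
    replace hy : y ∈ H0.edge 0 := hy
    rw [e0] at hx hy
    simp only [Finset.mem_insert, Finset.mem_singleton] at hx hy
    rcases hx with rfl | rfl <;> rcases hy with rfl | rfl <;> simp [g0, cc, ll, mm, dd] <;>
      ring_nf <;> nlinarith
  · replace hx : x ∈ H0.edge 1 := hx
    replace hy : y ∈ H0.edge 1 := hy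
    rw [e1] at hx hy
    simp only [Finset.mem_insert, Finset.mem_singleton] at hx hy
    rcases hx with rfl | rfl <;> rcases hy with rfl | rfl <;> simp [g0, cc, ll, mm, dd] <;>
      ring_nf <;> nlinarith
  · replace hx : x ∈ H0.edge 2 := hx
    replace hy : y ∈ H0.edge 2 := hy
    rw [e2] at hx hy
    simp only [Finset.mem_insert, Finset.mem_singleton] at hx hy
    rcases hx with rfl | rfl <;> rcases hy with rfl | rfl <;> simp [g0, cc, ll, mm, dd] <;>
      ring_nf <;> nlinarith
  · replace hx : x ∈ H0.edge 3 := hx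
    replace hy : y ∈ H0.edge 3 := hy
    rw [e3] at hx hy
    simp only [Finset.mem_insert, Finset.mem_singleton] at hx hy
    rcases hx with rfl | rfl <;> rcases hy with rfl | rfl <;> simp [g0, cc, ll, mm, dd] <;>
      ring_nf <;> nlinarith
  · replace hx : x ∈ H0.edge 4 := hx
    replace hy : y ∈ H0.edge 4 := hy
    rw [e4] at hx hy
    simp only [Finset.mem_insert, Finset.mem_singleton] at hx hy
    rcases hx with rfl | rfl | rfl <;> rcases hy with rfl | rfl | rfl <;>
      simp [g0, cc, ll, mm, dd] <;> ring_nf <;> nlinarith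
  · replace hx : x ∈ H0.edge 5 := hx
    replace hy : y ∈ H0.edge 5 := hy
    rw [e5] at hx hy
    simp only [Finset.mem_insert, Finset.mem_singleton] at hx hy
    rcases hx with rfl | rfl | rfl <;> rcases hy with rfl | rfl | rfl <;>
      simp [g0, cc, ll, mm, dd] <;> ring_nf <;> nlinarith

lemma mem_KSet {s : ℝ} (hs : 0 < s) (hs1 : s < 1 / 10000) :
    2 + s * (cc 0 - cc 4) ∈ H0.KSet s 0 4 := by
  refine ⟨_, test_lip hs hs1, Fs s, ⟨ll s, ll_mem hs hs1, rfl⟩, ?_⟩
  rw [H0.inner_delta, Fs_div, Fs_div]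
  simp [g0]; ring

/-- A function in `Lip_{x,y}`. -/
lemma nonempty_CSet : (H0.CSet 0 4).Nonempty := by
  have hLip : Fs 0 ∈ H0.LipXY 0 4 := by
    refine ⟨?_, ?_⟩
    · apply H0.lip_of_edges conn
      intro i x hx y hy
      rw [Fs_div, Fs_div]
      have : ∀ i : Fin 6, ∀ x ∈ edges i, ∀ y ∈ edges i, ((![2, 2, 1, 0, 0, 1, 3] : Fin 7 → ℤ) x)
          - ((![2, 2, 1, 0, 0, 1, 3] : Fin 7 → ℤ) y) ≤ 1 := by decide
      have h := this i x hx y hy
      have hcast : ∀ v, g0 v = (((![2, 2, 1, 0, 0, 1, 3] : Fin 7 → ℤ) v : ℤ) : ℝ) := by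
        intro v
        fin_cases v <;> simp [g0]
      rw [hcast, hcast]
      have h' : (((![2, 2, 1, 0, 0, 1, 3] : Fin 7 → ℤ) x : ℤ) : ℝ)
          - (((![2, 2, 1, 0, 0, 1, 3] : Fin 7 → ℤ) y : ℤ) : ℝ) ≤ 1 := by exact_mod_cast h
      linarith
    · rw [H0.inner_delta, Fs_div, Fs_div, dist04]
      simp [g0]
  obtain ⟨l, hl⟩ := H0.exists_isLapZero (Fs 0)
  exact ⟨_, Fs 0, hLip, l, hl, rfl⟩

lemma lower_C : (11 / 21 - 44 / 76) / 2 ≤ H0.C 0 4 := by
  unfold WHypergraph.C
  rw [dist04]
  have h : (11 / 21 - 44 / 76 : ℝ) ≤ sInf (H0.CSet 0 4) :=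
    le_csInf nonempty_CSet fun r hr => lower hr
  linarith

/-- **The Laplacian formula for the IKTU curvature fails.** There are a finite connected weighted
hypergraph and distinct vertices `x`, `y` such that `(1 - K_s(x, y) / d(x, y)) / s` is, for all
small `s > 0`, at most a constant `c < C(x, y)`; in particular the IKTU curvature of `x`, `y` is
strictly smaller than `C(x, y)`. The suprema and infima involved are taken over nonempty sets
bounded on the relevant side. -/
theorem result : ∃ H : WHypergraph (Fin 7) (Fin 6), H.graph.Connected ∧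
    ∃ x y : Fin 7, x ≠ y ∧
      ((H.CSet x y).Nonempty ∧ BddBelow (H.CSet x y)) ∧
      (∀ᶠ s in 𝓝[>] (0 : ℝ), (H.KSet s x y).Nonempty ∧ BddAbove (H.KSet s x y)) ∧
      (∃ c < H.C x y, ∀ᶠ s in 𝓝[>] (0 : ℝ), 1 / s * (1 - H.K s x y / H.dist x y) ≤ c) ∧
      ∀ k, H.IsCurvature x y k → k < H.C x y := by
  have hev : ∀ᶠ s in 𝓝[>] (0 : ℝ), 0 < s ∧ s < 1 / 10000 := by
    filter_upwards [Ioo_mem_nhdsGT (show (0 : ℝ) < 1 / 10000 by norm_num)] with s hs
    exact hs
  have hbound : ∀ᶠ s in 𝓝[>] (0 : ℝ), 1 / s * (1 - H0.K s 0 4 / H0.dist 0 4) ≤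
      -(cc 0 - cc 4) / 2 := by
    filter_upwards [hev] with s hs
    have hK : 2 + s * (cc 0 - cc 4) ≤ H0.K s 0 4 :=
      le_csSup (H0.bddAbove_KSet hs.1 0 4) (mem_KSet hs.1 hs.2)
    rw [dist04, one_div_mul_eq_div, div_le_iff₀ hs.1]
    linarith
  have hc : -(cc 0 - cc 4) / 2 < H0.C 0 4 := by
    refine lt_of_lt_of_le ?_ lower_C
    simp [cc]
    norm_num
  refine ⟨H0, conn, 0, 4, by decide, ⟨nonempty_CSet, ⟨_, fun r hr => lower hr⟩⟩, ?_,
    ⟨_, hc, hbound⟩, ?_⟩
  · filter_upwards [hev] with s hs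
    exact ⟨⟨_, mem_KSet hs.1 hs.2⟩, H0.bddAbove_KSet hs.1 0 4⟩
  · intro k hk
    exact lt_of_le_of_lt (le_of_tendsto hk hbound) hc

end Pool.Agent.Results.MP_da7216_co.LaplacianFormula
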